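import Pool.Agent.helper95.T5.SpecN
import Pool.Agent.helper88.FT.PairCount

set_option autoImplicit false

/-!
# Project T5 (MP_16912e_nt), row PC4
-/

namespace Pool.Agent.T5

open Finset NumberField Pool.Agent.helper3.FT Pool.Agent.helper47.RA

theorem PC4 : PC4_stmt := by
  classical
  intro h y N K hN hh hy A A' B X _
  have hy0 : y ≠ 0 := hy.ne_zero
  have hg4 : g4 A A' B X = Nat.gcd (Int.gcd A A') (Int.gcd B X) := rfl
  rw [hg4]
  set δ := Nat.gcd h (Nat.gcd (Int.gcd A A') (Int.gcd B X)) with hδ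
  have hδ0 : 0 < δ := Nat.gcd_pos_of_pos_left _ hh
  have dδh : δ ∣ h := Nat.gcd_dvd_left _ _
  have dδg : δ ∣ Nat.gcd (Int.gcd A A') (Int.gcd B X) := Nat.gcd_dvd_right _ _
  have dδ1 : δ ∣ Int.gcd A A' := dδg.trans (Nat.gcd_dvd_left _ _)
  have dδ2 : δ ∣ Int.gcd B X := dδg.trans (Nat.gcd_dvd_right _ _)
  have dA : (δ : ℤ) ∣ A := (Int.natCast_dvd_natCast.mpr dδ1).trans (Int.gcd_dvd_left _ _)
  have dA' : (δ : ℤ) ∣ A' := (Int.natCast_dvd_natCast.mpr dδ1).trans (Int.gcd_dvd_right _ _)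
  have dB : (δ : ℤ) ∣ B := (Int.natCast_dvd_natCast.mpr dδ2).trans (Int.gcd_dvd_left _ _)
  have dX : (δ : ℤ) ∣ X := (Int.natCast_dvd_natCast.mpr dδ2).trans (Int.gcd_dvd_right _ _)
  obtain ⟨h0, hh0⟩ := dδh
  obtain ⟨A0, hA0⟩ := dA
  obtain ⟨A0', hA0'⟩ := dA'
  obtain ⟨B0, hB0⟩ := dB
  obtain ⟨X0, hX0⟩ := dX
  have hδZ : (δ : ℤ) ≠ 0 := by exact_mod_cast hδ0.ne'
  have hh0' : 1 ≤ h0 := by
    rcases Nat.eq_zero_or_pos h0 with h0z | h0z
    · rw [h0z, mul_zero] at hh0; omega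
    · exact h0z
  have key := pair_count_aux h0 y N K hN hh0' hy A0 A0' B0 X0 ?_
    ((pairs N K y).filter (fun p => Nat.Coprime h (5 * (p.1 * p.2)) ∧
      ((h : ℤ) ∣ F1 A A' B p.1 p.2) ∧ ((h : ℤ) ∣ F2 A' B X p.1 p.2))) ?_
  · refine key.trans ?_
    have e1 : (3 : ℝ) ^ h0.primeFactors.card ≤ 3 ^ h.primeFactors.card := by
      refine pow_le_pow_right₀ (by norm_num) (card_le_card ?_)
      exact Nat.primeFactors_mono (Dvd.intro_left _ hh0.symm) (by omega)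
    have e2 : (1 + 2 * K * N / (h0 * y) : ℝ) ≤ 1 + 2 * K * N * δ / (h * y) := by
      have hyr : (0 : ℝ) < y := by exact_mod_cast Nat.pos_of_ne_zero hy0
      have hh0r : (0 : ℝ) < h0 := by exact_mod_cast hh0'
      have hδr : (0 : ℝ) < δ := by exact_mod_cast hδ0
      have h1 : (h : ℝ) = δ * h0 := by exact_mod_cast hh0
      rw [h1]
      have e3 : (2 * K * N / (h0 * y) : ℝ) = 2 * K * N * δ / (δ * h0 * y) := by
        field_simp
      rw [e3]
    gcongr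
  · intro p hp hph ⟨h1, h2, h3, h4⟩
    have hph' : p ∣ h0 := by exact_mod_cast hph
    have c1 : ((δ * p : ℕ) : ℤ) ∣ A := by
      rw [hA0]; push_cast; exact mul_dvd_mul_left _ h1
    have c2 : ((δ * p : ℕ) : ℤ) ∣ A' := by
      rw [hA0']; push_cast; exact mul_dvd_mul_left _ h2
    have c3 : ((δ * p : ℕ) : ℤ) ∣ B := by
      rw [hB0]; push_cast; exact mul_dvd_mul_left _ h3
    have c4 : ((δ * p : ℕ) : ℤ) ∣ X := by
      rw [hX0]; push_cast; exact mul_dvd_mul_left _ h4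
    have c5 : δ * p ∣ h := by
      have : δ * p ∣ δ * h0 := mul_dvd_mul_left _ hph'
      exact hh0 ▸ this
    have c6 : δ * p ∣ Int.gcd A A' := by
      exact_mod_cast Int.dvd_coe_gcd c1 c2
    have c7 : δ * p ∣ Int.gcd B X := by
      exact_mod_cast Int.dvd_coe_gcd c3 c4
    have c8 : δ * p ∣ δ := Nat.dvd_gcd c5 (Nat.dvd_gcd c6 c7)
    have := Nat.le_of_dvd hδ0 c8
    have hp2 := hp.two_le
    nlinarith
  · intro p hp
    obtain ⟨hp1, hp2, hp3, hp4⟩ := mem_filter.mp hp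
    have hhZ : (h : ℤ) = (δ : ℤ) * (h0 : ℤ) := by exact_mod_cast hh0
    refine ⟨hp1, Nat.Coprime.coprime_dvd_left (Dvd.intro_left _ hh0.symm) hp2, ?_, ?_⟩
    · have e : F1 A A' B p.1 p.2 = δ * F1 A0 A0' B0 p.1 p.2 := by
        unfold F1; rw [hA0, hA0', hB0]; ring
      rw [e, hhZ] at hp3
      exact (mul_dvd_mul_iff_left hδZ).mp hp3
    · have e : F2 A' B X p.1 p.2 = δ * F2 A0' B0 X0 p.1 p.2 := by
        unfold F2; rw [hA0', hB0, hX0]; ring
      rw [e, hhZ] at hp4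
      exact (mul_dvd_mul_iff_left hδZ).mp hp4

end Pool.Agent.T5
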