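import Pool.Agent.helper82.T5.SpecS

set_option autoImplicit false

/-!
# Project T5 (MP_16912e_nt), row SFP
-/

namespace Pool.Agent.T5

open Finset NumberField Pool.Agent.helper3.FT Pool.Agent.helper47.RA

theorem SFP_oddsq (k : ℤ) (hk : ¬ (2 : ℤ) ∣ k) : ∃ j : ℤ, k ^ 2 = 8 * j + 1 := by
  obtain ⟨a, ha⟩ : ∃ a : ℤ, k = 2 * a + 1 := ⟨k / 2, by omega⟩
  obtain ⟨j, hj⟩ := Int.even_mul_succ_self a
  refine ⟨j, ?_⟩
  rw [ha]
  linear_combination 4 * hj

theorem SFP_two (D k C Z L : ℤ) (hk : ¬ (2 : ℤ) ∣ k) (hC : (2 : ℤ) ∣ C) (hZ : (2 : ℤ) ∣ Z)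
    (hZ2 : ¬ (2 : ℤ) ^ 2 ∣ Z) (hL : ¬ (2 : ℤ) ∣ L) (h : D * k ^ 2 = C ^ 2 - 4 * Z * L ^ 2) :
    D % 16 ≠ 0 ∧ D % 16 ≠ 4 := by
  obtain ⟨j, hj⟩ := SFP_oddsq k hk
  obtain ⟨l, hl⟩ := SFP_oddsq L hL
  obtain ⟨c, hc⟩ := hC
  obtain ⟨z, hz⟩ := hZ
  have hz2 : ¬ (2 : ℤ) ∣ z := by
    intro h2
    apply hZ2
    obtain ⟨y, hy⟩ := h2
    exact ⟨y, by rw [hz, hy]; ring⟩
  obtain ⟨z', hz'⟩ : ∃ z' : ℤ, z = 2 * z' + 1 := ⟨z / 2, by omega⟩
  have e1 : D * k ^ 2 = 4 * c ^ 2 - 16 * (z' * L ^ 2) - 64 * l - 8 := by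
    rw [h, hc, hz, hz']
    linear_combination (-8) * hl
  have hcc : (∃ y : ℤ, c ^ 2 = 4 * y) ∨ ∃ i : ℤ, c ^ 2 = 8 * i + 1 := by
    by_cases h2 : (2 : ℤ) ∣ c
    · obtain ⟨b, hb⟩ := h2
      left; exact ⟨b ^ 2, by rw [hb]; ring⟩
    · right; exact SFP_oddsq c h2
  have aux : ∀ e : ℤ, D % 16 = e → D * k ^ 2 = 16 * (D / 16 * k ^ 2) + e * (8 * j + 1) := by
    intro e he
    have h1 : D = 16 * (D / 16) + e := by omega
    calc D * k ^ 2 = (16 * (D / 16) + e) * k ^ 2 := by rw [← h1]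
      _ = 16 * (D / 16 * k ^ 2) + e * k ^ 2 := by ring
      _ = _ := by rw [hj]
  generalize z' * L ^ 2 = W at e1
  constructor
  · intro h0
    have e2 := aux 0 h0
    rw [e1] at e2
    generalize D / 16 * k ^ 2 = X at e2
    rcases hcc with ⟨y, hy⟩ | ⟨i, hi⟩
    · rw [hy] at e2; omega
    · rw [hi] at e2; omega
  · intro h0
    have e2 := aux 4 h0
    rw [e1] at e2
    generalize D / 16 * k ^ 2 = X at e2
    rcases hcc with ⟨y, hy⟩ | ⟨i, hi⟩
    · rw [hy] at e2; omega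
    · rw [hi] at e2; omega

theorem SFP_first (hAIST : AIST_stmt) (p : ℕ) (t : Tpl) (hp : p.Prime) (ht : IsT t)
    (hf : fp p t ≠ 0) : Pfund p (dis t) := by
  classical
  unfold fp at hf
  by_cases hpn : p ∣ t.1.1
  · rw [if_pos hpn] at hf
    by_cases hcond : ¬ p ∣ t.1.2 ∧ ¬ (p : ℤ) ∣ t.2.2.1 ∧ (p : ℤ) ∣ t.2.1 ∧ ¬ (p : ℤ) ^ 2 ∣ t.2.1
    · obtain ⟨hpk, hpg, hpm, hpm2⟩ := hcond
      obtain ⟨E1, _, E3, ⟨A, C, _, E5, _, _, E8⟩, _, _⟩ := hAIST t ht
      have hn1 := ht.n1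
      have hpZ : Prime (p : ℤ) := Nat.prime_iff_prime_int.mp hp
      have hp0 : (p : ℤ) ≠ 0 := hpZ.ne_zero
      set n : ℤ := (t.1.1 : ℤ) with hn
      set k : ℤ := (t.1.2 : ℤ) with hk
      set m : ℤ := t.2.1
      set g : ℤ := t.2.2.1
      set Z : ℤ := t.2.2.2
      set L : ℤ := lam t
      have hn0 : n ≠ 0 := by rw [hn]; exact_mod_cast (by omega : t.1.1 ≠ 0)
      have hpn' : (p : ℤ) ∣ n := by rw [hn]; exact_mod_cast hpn
      have hpk' : ¬ (p : ℤ) ∣ k := by rw [hk]; exact_mod_cast hpk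
      have hpk2 : ¬ (p : ℤ) ∣ k ^ 2 := fun h => hpk' (hpZ.dvd_of_dvd_pow h)
      have ek : k ^ 2 * C = g * L * n - m * RR' t := by
        apply mul_left_cancel₀ hn0
        linear_combination k ^ 2 * E5 - g * E1 + m * E3
      have hpC : (p : ℤ) ∣ C := by
        have h1 : (p : ℤ) ∣ k ^ 2 * C := by
          rw [ek]
          exact dvd_sub (hpn'.mul_left _) (hpm.mul_right _)
        exact (hpZ.dvd_or_dvd h1).resolve_left hpk2
      have hpL : ¬ (p : ℤ) ∣ L := by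
        intro h
        have h1 : (p : ℤ) ∣ g ^ 2 := by
          have e : g ^ 2 = n * RR' t + L * k ^ 2 := by linarith
          rw [e]
          exact dvd_add (hpn'.mul_right _) (h.mul_right _)
        exact hpg (hpZ.dvd_of_dvd_pow h1)
      obtain ⟨n', hn'⟩ := hpn'
      obtain ⟨m', hm'⟩ := hpm
      have hpm' : ¬ (p : ℤ) ∣ m' := by
        rintro ⟨y, hy⟩
        exact hpm2 ⟨y, by rw [hm', hy]; ring⟩
      have hpZZ : (p : ℤ) ∣ Z := by
        have h1 : (p : ℤ) ∣ k ^ 2 * Z := by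
          refine ⟨p * L * n' ^ 2 - m' * g, ?_⟩
          have e : k ^ 2 * Z = L * n ^ 2 - m * g := by linarith
          rw [e, hn', hm']
          ring
        exact (hpZ.dvd_or_dvd h1).resolve_left hpk2
      obtain ⟨Z', hZ'⟩ := hpZZ
      have hpZ' : ¬ (p : ℤ) ∣ Z' := by
        intro h
        have h1 : (p : ℤ) ∣ m' * g := by
          have e : m' * g = p * L * n' ^ 2 - Z' * k ^ 2 := by
            apply mul_left_cancel₀ hp0
            have e2 : L * n ^ 2 = m * g + Z * k ^ 2 := E1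
            rw [hn', hm', hZ'] at e2
            linear_combination (-1) * e2
          rw [e]
          exact dvd_sub (Dvd.intro _ (mul_assoc _ _ _).symm) (h.mul_right _)
        rcases hpZ.dvd_or_dvd h1 with h2 | h2
        · exact hpm' h2
        · exact hpg h2
      unfold Pfund
      by_cases hp2 : p = 2
      · rw [if_pos hp2]
        subst hp2
        refine SFP_two (dis t) k C Z L hpk' hpC ⟨Z', hZ'⟩ ?_ hpL E8
        rintro ⟨y, hy⟩
        apply hpZ'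
        refine ⟨y, ?_⟩
        apply mul_left_cancel₀ hp0
        rw [← hZ', hy]
        push_cast
        ring
      · rw [if_neg hp2]
        rintro ⟨y, hy⟩
        obtain ⟨c, hc⟩ := hpC
        have h1 : (p : ℤ) ∣ 4 * (Z' * L ^ 2) := by
          refine ⟨c ^ 2 - y * k ^ 2, ?_⟩
          apply mul_left_cancel₀ hp0
          rw [hy, hc, hZ'] at E8
          linear_combination E8
        rcases hpZ.dvd_or_dvd h1 with h2 | h2
        · have h3 : p ∣ 4 := by exact_mod_cast h2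
          have h4 : p ∣ 2 ^ 2 := by simpa using h3
          have := hp.dvd_of_dvd_pow h4
          exact hp2 ((Nat.prime_dvd_prime_iff_eq hp Nat.prime_two).mp this)
        · rcases hpZ.dvd_or_dvd h2 with h3 | h3
          · exact hpZ' h3
          · exact hpL (hpZ.dvd_of_dvd_pow h3)
    · rw [if_neg hcond] at hf
      exact absurd rfl hf
  · rw [if_neg hpn] at hf
    by_cases hcond : ((p : ℤ) ∣ t.2.2.2 ∧ (p : ℤ) ∣ lam t) ∨ ¬ Pfund p (dis t)
    · rw [if_pos hcond] at hf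
      exact absurd rfl hf
    · push Not at hcond
      exact hcond.2

theorem SFP (hAIST : AIST_stmt) : SFP_stmt := by
  refine ⟨fun p t hp ht hf => SFP_first hAIST p t hp ht hf, ?_⟩
  intro w t f D₀ ht hfw hD hdis _ p hp hpf
  by_contra hcon
  push Not at hcon
  have hmem : p ∈ pr w := by
    unfold pr
    exact mem_filter.mpr ⟨mem_range.mpr (by omega), hp⟩
  have hfp : fp p t ≠ 0 := by
    unfold fw at hfw
    exact (Finset.prod_ne_zero_iff.mp hfw) p hmem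
  have hP := SFP_first hAIST p t hp ht hfp
  unfold Pfund at hP
  obtain ⟨f', hf'⟩ := hpf
  by_cases hp2 : p = 2
  · rw [if_pos hp2] at hP
    subst hp2
    have e : dis t = 4 * (D₀ * (f' : ℤ) ^ 2) := by
      rw [hdis, hf']; push_cast; ring
    rcases hD with ⟨hD1, _, _⟩ | ⟨m, hm, _⟩
    · by_cases h2 : (2 : ℤ) ∣ (f' : ℤ)
      · obtain ⟨h, hh⟩ := h2
        have e2 : dis t = 16 * (D₀ * h ^ 2) := by
          rw [e, hh]; ring
        apply hP.1
        rw [e2]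
        omega
      · obtain ⟨j, hj⟩ := SFP_oddsq (f' : ℤ) h2
        obtain ⟨q, hq⟩ : ∃ q : ℤ, D₀ = 4 * q + 1 := ⟨D₀ / 4, by omega⟩
        have e2 : dis t = 16 * (q * (8 * j + 1)) + 32 * j + 4 := by
          rw [e, hj, hq]; ring
        apply hP.2
        rw [e2]
        omega
    · have e2 : dis t = 16 * (m * (f' : ℤ) ^ 2) := by
        rw [e, hm]; ring
      apply hP.1
      rw [e2]
      omega
  · rw [if_neg hp2] at hP
    apply hP
    refine ⟨D₀ * (f' : ℤ) ^ 2, ?_⟩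
    rw [hdis, hf']
    push_cast
    ring

end Pool.Agent.T5
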