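import Pool.Agent.helper94.T5.SpecV

set_option autoImplicit false

/-!
# Project T5 (MP_16912e_nt), row VVL
-/

namespace Pool.Agent.T5V

open MeasureTheory Set
open scoped ENNReal

theorem VVL_red (A B : ℝ → ℝ≥0∞) (h : ∀ x, 0 < x → A x = B x) (h0 : ∀ x, x ≤ 0 → A x = 0) :
    ∫⁻ x, A x = ∫⁻ x in Ioi (0 : ℝ), B x := by
  rw [← lintegral_indicator measurableSet_Ioi]
  refine lintegral_congr (fun x => ?_)
  by_cases hx : 0 < x
  · rw [indicator_of_mem (mem_Ioi.mpr hx), h x hx]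
  · have hx' : x ∉ Ioi (0 : ℝ) := hx
    rw [indicator_of_notMem hx', h0 x (not_lt.mp hx)]

theorem VVL_fub (F : ℝ × ℝ × ℝ × ℝ × ℝ → ℝ≥0∞) (hF : Measurable F) :
    ∫⁻ x, F x = ∫⁻ Z, ∫⁻ n, ∫⁻ k, ∫⁻ m, ∫⁻ g, F (Z, n, k, m, g) := by
  rw [Measure.volume_eq_prod, lintegral_prod _ hF.aemeasurable]
  refine lintegral_congr (fun Z => ?_)
  have h1 : Measurable (fun y : ℝ × ℝ × ℝ × ℝ => F (Z, y)) := hF.comp measurable_prodMk_left
  rw [Measure.volume_eq_prod, lintegral_prod _ h1.aemeasurable]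
  refine lintegral_congr (fun n => ?_)
  have h2 : Measurable (fun y : ℝ × ℝ × ℝ => F (Z, n, y)) := h1.comp measurable_prodMk_left
  rw [Measure.volume_eq_prod, lintegral_prod _ h2.aemeasurable]
  refine lintegral_congr (fun k => ?_)
  have h3 : Measurable (fun y : ℝ × ℝ => F (Z, n, k, y)) := h2.comp measurable_prodMk_left
  rw [Measure.volume_eq_prod, lintegral_prod _ h3.aemeasurable]

theorem VVL_meas (κ : ℝ) : MeasurableSet (CenR κ) := by
  have mLa : Measurable (fun x : ℝ × ℝ × ℝ × ℝ × ℝ => La x.1 x.2.1 x.2.2.1 x.2.2.2.1 x.2.2.2.2) := by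
    unfold La; fun_prop
  have mWd : Measurable (fun x : ℝ × ℝ × ℝ × ℝ × ℝ => Wd x.1 x.2.1 x.2.2.1 x.2.2.2.1 x.2.2.2.2) := by
    unfold Wd La; fun_prop
  have mS1 : Measurable (fun x : ℝ × ℝ × ℝ × ℝ × ℝ => S1 x.1 x.2.1 x.2.2.1 x.2.2.2.1 x.2.2.2.2) := by
    unfold S1 Wd La; fun_prop
  have mS2 : Measurable (fun x : ℝ × ℝ × ℝ × ℝ × ℝ => S2 x.1 x.2.1 x.2.2.1 x.2.2.2.1 x.2.2.2.2) := by
    unfold S2 Wd La; fun_prop
  have m1 : Measurable (fun x : ℝ × ℝ × ℝ × ℝ × ℝ => x.1) := by fun_prop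
  have m2 : Measurable (fun x : ℝ × ℝ × ℝ × ℝ × ℝ => x.2.1) := by fun_prop
  have m3 : Measurable (fun x : ℝ × ℝ × ℝ × ℝ × ℝ => x.2.2.1) := by fun_prop
  unfold CenR
  refine (measurableSet_lt measurable_const m1).inter ?_
  refine (measurableSet_le m1 measurable_const).inter ?_
  refine (measurableSet_lt measurable_const m2).inter ?_
  refine (measurableSet_lt measurable_const m3).inter ?_
  refine (measurableSet_le measurable_const mLa).inter ?_
  refine (measurableSet_le mLa mWd.sqrt).inter ?_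
  refine (measurableSet_lt measurable_const mWd).inter ?_
  refine (measurableSet_le mWd measurable_const).inter ?_
  refine (measurableSet_le measurable_const mS1).inter ?_
  exact measurableSet_le measurable_const mS2

open Classical in
/-- the indicator of a condition -/
noncomputable def VVL_ind (p : Prop) : ℝ≥0∞ := if p then 1 else 0

theorem VVL_ind_true {p : Prop} (h : p) : VVL_ind p = 1 := by
  classical
  exact if_pos h

theorem VVL_ind_false {p : Prop} (h : ¬ p) : VVL_ind p = 0 := by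
  classical
  exact if_neg h

theorem VVL_ind_and (p q : Prop) : VVL_ind (p ∧ q) = VVL_ind p * VVL_ind q := by
  by_cases hp : p
  · by_cases hq : q
    · rw [VVL_ind_true ⟨hp, hq⟩, VVL_ind_true hp, VVL_ind_true hq, one_mul]
    · rw [VVL_ind_false (fun h => hq h.2), VVL_ind_false hq, mul_zero]
  · rw [VVL_ind_false (fun h => hp h.1), VVL_ind_false hp, zero_mul]

theorem VVL_ind_ne (p : Prop) : VVL_ind p ≠ ∞ := by
  by_cases hp : p
  · rw [VVL_ind_true hp]; exact ENNReal.one_ne_top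
  · rw [VVL_ind_false hp]; exact ENNReal.zero_ne_top

theorem VVL_ind_meas {α : Type} [MeasurableSpace α] (s : Set α) (hs : MeasurableSet s) :
    Measurable (fun x => VVL_ind (x ∈ s)) := by
  classical
  exact Measurable.ite hs measurable_const measurable_const

theorem VVL_ind_int (s t : Set ℝ) (hs : MeasurableSet s) :
    ∫⁻ x in t, VVL_ind (x ∈ s) = volume (s ∩ t) := by
  classical
  have e : (fun x => VVL_ind (x ∈ s)) = s.indicator (fun _ => (1 : ℝ≥0∞)) := by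
    funext x
    by_cases hx : x ∈ s
    · rw [VVL_ind_true hx, indicator_of_mem hx]
    · rw [VVL_ind_false hx, indicator_of_notMem hx]
  rw [e, lintegral_indicator hs, lintegral_one, Measure.restrict_apply_univ,
    Measure.restrict_apply hs]

theorem VVL_sin (κ : ℝ) (h0 : 0 < κ) (h1 : κ < 1 / 2) :
    ∫⁻ φ in Ioo 0 Real.pi, VVL_ind (κ ≤ Real.sin φ) = ENNReal.ofReal (Real.pi - 2 * Real.arcsin κ) := by
  have hpi := Real.pi_pos
  have ha : 0 < Real.arcsin κ := Real.arcsin_pos.mpr h0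
  have ha2 : Real.arcsin κ ≤ Real.pi / 2 := Real.arcsin_le_pi_div_two κ
  have hκ : κ ∈ Icc (-1 : ℝ) 1 := ⟨by linarith, by linarith⟩
  have hm : MeasurableSet {φ : ℝ | κ ≤ Real.sin φ} :=
    measurableSet_le measurable_const Real.measurable_sin
  have h := VVL_ind_int {φ : ℝ | κ ≤ Real.sin φ} (Ioo 0 Real.pi) hm
  have e : {φ : ℝ | κ ≤ Real.sin φ} ∩ Ioo 0 Real.pi = Icc (Real.arcsin κ) (Real.pi - Real.arcsin κ) := by
    ext φ
    constructor
    · rintro ⟨hs, hφ0, hφ1⟩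
      have hs' : κ ≤ Real.sin φ := hs
      by_cases hle : φ ≤ Real.pi / 2
      · have := (Real.arcsin_le_iff_le_sin hκ ⟨by linarith, hle⟩).mpr hs'
        exact ⟨this, by linarith⟩
      · push Not at hle
        have hs2 : κ ≤ Real.sin (Real.pi - φ) := by rw [Real.sin_pi_sub]; exact hs'
        have := (Real.arcsin_le_iff_le_sin hκ ⟨by linarith, by linarith⟩).mpr hs2
        exact ⟨by linarith, by linarith⟩
    · rintro ⟨hφ0, hφ1⟩
      refine ⟨?_, by linarith, by linarith⟩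
      show κ ≤ Real.sin φ
      by_cases hle : φ ≤ Real.pi / 2
      · exact (Real.arcsin_le_iff_le_sin hκ ⟨by linarith, hle⟩).mp hφ0
      · push Not at hle
        have := (Real.arcsin_le_iff_le_sin (y := Real.pi - φ) hκ ⟨by linarith, by linarith⟩).mp
          (by linarith)
        rwa [Real.sin_pi_sub] at this
  rw [e, Real.volume_Icc] at h
  have h' : ∫⁻ φ in Ioo 0 Real.pi, VVL_ind (κ ≤ Real.sin φ) =
      ENNReal.ofReal (Real.pi - Real.arcsin κ - Real.arcsin κ) := h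
  rw [h']
  congr 1
  ring

theorem VVL_cal (κ : ℝ) (h0 : 0 < κ) (h1 : κ < 1 / 2) :
    ∫ w in (1 / 2 : ℝ)..1, (√w - κ) * (1 / (2 * w)) = 1 / 2 * (2 - √2 - κ * Real.log 2) := by
  have hd : ∀ w ∈ uIcc (1 / 2 : ℝ) 1, HasDerivAt (fun w => √w - κ / 2 * Real.log w)
      ((√w - κ) * (1 / (2 * w))) w := by
    intro w hw
    rw [uIcc_of_le (by norm_num)] at hw
    have hw0 : 0 < w := by linarith [hw.1]
    have hs0 : 0 < √w := Real.sqrt_pos.mpr hw0
    have d1 := (Real.hasDerivAt_sqrt hw0.ne')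
    have d2 := (Real.hasDerivAt_log hw0.ne').const_mul (κ / 2)
    have d := d1.sub d2
    have hsq : √w * √w = w := Real.mul_self_sqrt hw0.le
    have e1 : 1 / (2 * √w) = √w / (2 * w) := by
      rw [div_eq_div_iff (by positivity) (by positivity)]
      nlinarith [hsq]
    have e : (√w - κ) * (1 / (2 * w)) = 1 / (2 * √w) - κ / 2 * w⁻¹ := by
      rw [e1]
      field_simp
    rw [e]
    exact d
  have hi : IntervalIntegrable (fun w => (√w - κ) * (1 / (2 * w))) volume (1 / 2 : ℝ) 1 := by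
    apply ContinuousOn.intervalIntegrable
    intro w hw
    rw [uIcc_of_le (by norm_num)] at hw
    have hw0 : 0 < w := by linarith [hw.1]
    apply ContinuousAt.continuousWithinAt
    have : (2 * w) ≠ 0 := by positivity
    fun_prop (disch := assumption)
  rw [intervalIntegral.integral_eq_sub_of_hasDerivAt hd hi]
  have e1 : √(1 / 2 : ℝ) = √2 / 2 := by
    rw [Real.sqrt_div (by norm_num), Real.sqrt_one]
    have h2 : √(2 : ℝ) * √2 = 2 := Real.mul_self_sqrt (by norm_num)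
    have h3 : 0 < √(2 : ℝ) := Real.sqrt_pos.mpr (by norm_num)
    field_simp
    linarith
  have e2 : Real.log (1 / 2) = -Real.log 2 := by
    rw [Real.log_div (by norm_num) (by norm_num), Real.log_one]; ring
  rw [e1, e2, Real.sqrt_one, Real.log_one]
  ring

theorem VVL_w (κ : ℝ) (h0 : 0 < κ) (h1 : κ < 1 / 2) :
    ∫⁻ w in Ioc (1 / 2 : ℝ) 1, ENNReal.ofReal (√w - κ) * ENNReal.ofReal (1 / (2 * w)) =
      ENNReal.ofReal (1 / 2 * (2 - √2 - κ * Real.log 2)) := by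
  rw [← VVL_cal κ h0 h1, intervalIntegral.integral_of_le (by norm_num)]
  have hpos : ∀ w ∈ Ioc (1 / 2 : ℝ) 1, 0 ≤ √w - κ := by
    intro w hw
    have : (1 / 2 : ℝ) ≤ √w := by
      apply Real.le_sqrt_of_sq_le
      nlinarith [hw.1]
    linarith
  have hi : IntegrableOn (fun w => (√w - κ) * (1 / (2 * w))) (Ioc (1 / 2 : ℝ) 1) volume := by
    have hc : ContinuousOn (fun w => (√w - κ) * (1 / (2 * w))) (Icc (1 / 2 : ℝ) 1) := by
      intro w hw
      have hw0 : 0 < w := by linarith [hw.1]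
      apply ContinuousAt.continuousWithinAt
      have : (2 * w) ≠ 0 := by positivity
      fun_prop (disch := assumption)
    exact (hc.integrableOn_Icc).mono_set Ioc_subset_Icc_self
  rw [ofReal_integral_eq_lintegral_ofReal hi]
  · refine setLIntegral_congr_fun measurableSet_Ioc (fun w hw => ?_)
    show ENNReal.ofReal (√w - κ) * ENNReal.ofReal (1 / (2 * w)) = _
    rw [← ENNReal.ofReal_mul (hpos w hw)]
  · refine (ae_restrict_iff' measurableSet_Ioc).mpr (Filter.Eventually.of_forall (fun w hw => ?_))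
    have hw0 : 0 < w := by linarith [hw.1]
    exact mul_nonneg (hpos w hw) (by positivity)

/-- the condition on `(Z, l, w)` -/
def VVL_c (κ Z l w : ℝ) : Prop :=
  (1 / 2 < Z ∧ Z ≤ 1) ∧ ((1 / 2 < w ∧ w ≤ 1) ∧ (κ ≤ l ∧ l ≤ √w))

/-- the test function -/
noncomputable def VVL_G (κ Z l w s1 s2 : ℝ) : ℝ≥0∞ :=
  VVL_ind (VVL_c κ Z l w) * VVL_ind (κ ≤ s1) * VVL_ind (κ ≤ s2)

theorem VVL_cmeas (κ : ℝ) : MeasurableSet {x : ℝ × ℝ × ℝ | VVL_c κ x.1 x.2.1 x.2.2} := by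
  have m1 : Measurable (fun x : ℝ × ℝ × ℝ => x.1) := by fun_prop
  have m2 : Measurable (fun x : ℝ × ℝ × ℝ => x.2.1) := by fun_prop
  have m3 : Measurable (fun x : ℝ × ℝ × ℝ => x.2.2) := by fun_prop
  unfold VVL_c
  refine ((measurableSet_lt measurable_const m1).inter (measurableSet_le m1 measurable_const)).inter ?_
  refine ((measurableSet_lt measurable_const m3).inter (measurableSet_le m3 measurable_const)).inter ?_
  exact (measurableSet_le measurable_const m2).inter (measurableSet_le m2 m3.sqrt)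

theorem VVL_Gmeas (κ : ℝ) :
    Measurable (fun x : ℝ × ℝ × ℝ × ℝ × ℝ => VVL_G κ x.1 x.2.1 x.2.2.1 x.2.2.2.1 x.2.2.2.2) := by
  unfold VVL_G
  refine Measurable.mul (Measurable.mul ?_ ?_) ?_
  · have h := VVL_ind_meas _ (VVL_cmeas κ)
    exact h.comp (by fun_prop : Measurable (fun x : ℝ × ℝ × ℝ × ℝ × ℝ => (x.1, x.2.1, x.2.2.1)))
  · have h := VVL_ind_meas (Ici κ) measurableSet_Ici
    exact h.comp (by fun_prop : Measurable (fun x : ℝ × ℝ × ℝ × ℝ × ℝ => x.2.2.2.1))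
  · have h := VVL_ind_meas (Ici κ) measurableSet_Ici
    exact h.comp (by fun_prop : Measurable (fun x : ℝ × ℝ × ℝ × ℝ × ℝ => x.2.2.2.2))

theorem VVL_inner (κ : ℝ) (h0 : 0 < κ) (h1 : κ < 1 / 2) (Z l w : ℝ) :
    ∫⁻ φ in Ioo 0 Real.pi, ∫⁻ ψ in Ioo 0 Real.pi,
        VVL_G κ Z l w (Real.sin φ) (Real.sin ψ) * ENNReal.ofReal (1 / (2 * w)) =
      VVL_ind (VVL_c κ Z l w) * ENNReal.ofReal (1 / (2 * w)) *
        (ENNReal.ofReal (Real.pi - 2 * Real.arcsin κ) * ENNReal.ofReal (Real.pi - 2 * Real.arcsin κ)) := by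
  set P := ENNReal.ofReal (Real.pi - 2 * Real.arcsin κ) with hP
  set c := VVL_ind (VVL_c κ Z l w) * ENNReal.ofReal (1 / (2 * w)) with hc
  have hcne : c ≠ ∞ := ENNReal.mul_ne_top (VVL_ind_ne _) ENNReal.ofReal_ne_top
  have e1 : ∀ φ : ℝ, ∫⁻ ψ in Ioo 0 Real.pi,
      VVL_G κ Z l w (Real.sin φ) (Real.sin ψ) * ENNReal.ofReal (1 / (2 * w)) =
      c * P * VVL_ind (κ ≤ Real.sin φ) := by
    intro φ
    have e2 : ∀ ψ : ℝ, VVL_G κ Z l w (Real.sin φ) (Real.sin ψ) * ENNReal.ofReal (1 / (2 * w)) =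
        (c * VVL_ind (κ ≤ Real.sin φ)) * VVL_ind (κ ≤ Real.sin ψ) := by
      intro ψ
      unfold VVL_G
      rw [hc]
      ring
    rw [lintegral_congr e2, lintegral_const_mul' _ _ (ENNReal.mul_ne_top hcne (VVL_ind_ne _)),
      VVL_sin κ h0 h1]
    ring
  rw [lintegral_congr e1, lintegral_const_mul' _ _ (ENNReal.mul_ne_top hcne ENNReal.ofReal_ne_top),
    VVL_sin κ h0 h1]
  ring

theorem VVL_J (κ : ℝ) (h0 : 0 < κ) (h1 : κ < 1 / 2) :
    ∫⁻ l in Ioi (0 : ℝ), ∫⁻ w in Ioi (0 : ℝ),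
      VVL_ind ((1 / 2 < w ∧ w ≤ 1) ∧ (κ ≤ l ∧ l ≤ √w)) * ENNReal.ofReal (1 / (2 * w)) =
      ENNReal.ofReal (1 / 2 * (2 - √2 - κ * Real.log 2)) := by
  have hmeas : Measurable (fun x : ℝ × ℝ =>
      VVL_ind ((1 / 2 < x.2 ∧ x.2 ≤ 1) ∧ (κ ≤ x.1 ∧ x.1 ≤ √x.2)) * ENNReal.ofReal (1 / (2 * x.2))) := by
    refine Measurable.mul ?_ (by fun_prop)
    have m1 : Measurable (fun x : ℝ × ℝ => x.1) := by fun_prop
    have m2 : Measurable (fun x : ℝ × ℝ => x.2) := by fun_prop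
    have hs : MeasurableSet {x : ℝ × ℝ | (1 / 2 < x.2 ∧ x.2 ≤ 1) ∧ (κ ≤ x.1 ∧ x.1 ≤ √x.2)} := by
      refine ((measurableSet_lt measurable_const m2).inter (measurableSet_le m2 measurable_const)).inter ?_
      exact (measurableSet_le measurable_const m1).inter (measurableSet_le m1 m2.sqrt)
    exact VVL_ind_meas _ hs
  rw [lintegral_lintegral_swap hmeas.aemeasurable]
  have e1 : ∀ w : ℝ, ∫⁻ l in Ioi (0 : ℝ),
      VVL_ind ((1 / 2 < w ∧ w ≤ 1) ∧ (κ ≤ l ∧ l ≤ √w)) * ENNReal.ofReal (1 / (2 * w)) =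
      (Ioc (1 / 2 : ℝ) 1).indicator
        (fun w => ENNReal.ofReal (√w - κ) * ENNReal.ofReal (1 / (2 * w))) w := by
    intro w
    have e2 : ∀ l : ℝ, VVL_ind ((1 / 2 < w ∧ w ≤ 1) ∧ (κ ≤ l ∧ l ≤ √w)) * ENNReal.ofReal (1 / (2 * w)) =
        (VVL_ind (1 / 2 < w ∧ w ≤ 1) * ENNReal.ofReal (1 / (2 * w))) * VVL_ind (l ∈ Icc κ (√w)) := by
      intro l
      rw [VVL_ind_and]
      have : VVL_ind (κ ≤ l ∧ l ≤ √w) = VVL_ind (l ∈ Icc κ (√w)) := rfl
      rw [this]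
      ring
    rw [lintegral_congr e2, lintegral_const_mul' _ _
      (ENNReal.mul_ne_top (VVL_ind_ne _) ENNReal.ofReal_ne_top), VVL_ind_int _ _ measurableSet_Icc]
    have e3 : Icc κ (√w) ∩ Ioi 0 = Icc κ (√w) := by
      apply inter_eq_left.mpr
      intro l hl
      exact lt_of_lt_of_le h0 hl.1
    rw [e3, Real.volume_Icc]
    by_cases hw : w ∈ Ioc (1 / 2 : ℝ) 1
    · have t : VVL_ind (1 / 2 < w ∧ w ≤ 1) = 1 := VVL_ind_true hw
      rw [indicator_of_mem hw, t, one_mul, mul_comm]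
    · have t : VVL_ind (1 / 2 < w ∧ w ≤ 1) = 0 := VVL_ind_false hw
      rw [indicator_of_notMem hw, t, zero_mul, zero_mul]
  rw [lintegral_congr e1, lintegral_indicator measurableSet_Ioc,
    Measure.restrict_restrict measurableSet_Ioc]
  have e4 : Ioc (1 / 2 : ℝ) 1 ∩ Ioi 0 = Ioc (1 / 2 : ℝ) 1 := by
    apply inter_eq_left.mpr
    intro w hw
    exact lt_trans (by norm_num) hw.1
  rw [e4]
  exact VVL_w κ h0 h1

theorem VVL_right (κ : ℝ) (h0 : 0 < κ) (h1 : κ < 1 / 2) :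
    ∫⁻ Z in Ioi (0 : ℝ), ∫⁻ l in Ioi (0 : ℝ), ∫⁻ w in Ioi (0 : ℝ),
      ∫⁻ φ in Ioo 0 Real.pi, ∫⁻ ψ in Ioo 0 Real.pi,
        VVL_G κ Z l w (Real.sin φ) (Real.sin ψ) * ENNReal.ofReal (1 / (2 * w)) =
      ENNReal.ofReal (Iv κ) := by
  set P := ENNReal.ofReal (Real.pi - 2 * Real.arcsin κ) with hP
  have hPne : P * P ≠ ∞ := ENNReal.mul_ne_top ENNReal.ofReal_ne_top ENNReal.ofReal_ne_top
  have e1 : ∀ Z : ℝ, ∫⁻ l in Ioi (0 : ℝ), ∫⁻ w in Ioi (0 : ℝ),
      ∫⁻ φ in Ioo 0 Real.pi, ∫⁻ ψ in Ioo 0 Real.pi,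
        VVL_G κ Z l w (Real.sin φ) (Real.sin ψ) * ENNReal.ofReal (1 / (2 * w)) =
      (P * P * ENNReal.ofReal (1 / 2 * (2 - √2 - κ * Real.log 2))) * VVL_ind (Z ∈ Ioc (1 / 2 : ℝ) 1) := by
    intro Z
    have e2 : ∀ l : ℝ, ∫⁻ w in Ioi (0 : ℝ),
        ∫⁻ φ in Ioo 0 Real.pi, ∫⁻ ψ in Ioo 0 Real.pi,
        VVL_G κ Z l w (Real.sin φ) (Real.sin ψ) * ENNReal.ofReal (1 / (2 * w)) =
        (P * P * VVL_ind (Z ∈ Ioc (1 / 2 : ℝ) 1)) * ∫⁻ w in Ioi (0 : ℝ),
          VVL_ind ((1 / 2 < w ∧ w ≤ 1) ∧ (κ ≤ l ∧ l ≤ √w)) * ENNReal.ofReal (1 / (2 * w)) := by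
      intro l
      rw [← lintegral_const_mul' _ _ (ENNReal.mul_ne_top hPne (VVL_ind_ne _))]
      refine lintegral_congr (fun w => ?_)
      rw [VVL_inner κ h0 h1 Z l w]
      unfold VVL_c
      rw [VVL_ind_and]
      have : VVL_ind (1 / 2 < Z ∧ Z ≤ 1) = VVL_ind (Z ∈ Ioc (1 / 2 : ℝ) 1) := rfl
      rw [this, hP]
      ring
    rw [lintegral_congr e2, lintegral_const_mul' _ _ (ENNReal.mul_ne_top hPne (VVL_ind_ne _)),
      VVL_J κ h0 h1]
    ring
  rw [lintegral_congr e1, lintegral_const_mul' _ _ (ENNReal.mul_ne_top hPne ENNReal.ofReal_ne_top),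
    VVL_ind_int _ _ measurableSet_Ioc]
  have e3 : Ioc (1 / 2 : ℝ) 1 ∩ Ioi 0 = Ioc (1 / 2 : ℝ) 1 := by
    apply inter_eq_left.mpr
    intro w hw
    exact lt_trans (by norm_num) hw.1
  have ha2 : Real.arcsin κ ≤ Real.pi / 2 := Real.arcsin_le_pi_div_two κ
  have hp : 0 ≤ Real.pi - 2 * Real.arcsin κ := by linarith
  have hlog : Real.log 2 < 0.6931471808 := Real.log_two_lt_d9
  have hs2 : √2 ≤ (3 / 2 : ℝ) := by
    rw [Real.sqrt_le_left (by norm_num)]; norm_num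
  have hlog0 : 0 < Real.log 2 := Real.log_pos (by norm_num)
  have hq : 0 ≤ 1 / 2 * (2 - √2 - κ * Real.log 2) := by
    have : κ * Real.log 2 ≤ 1 / 2 * 0.6931471808 := by
      apply mul_le_mul h1.le hlog.le hlog0.le (by norm_num)
    nlinarith
  rw [e3, Real.volume_Ioc, hP, ← ENNReal.ofReal_mul hp, ← ENNReal.ofReal_mul (by positivity),
    ← ENNReal.ofReal_mul (by positivity)]
  congr 1
  unfold Iv
  ring

theorem VVL_left (κ : ℝ) (h0 : 0 < κ) :
    ∫⁻ x in CenR κ, ENNReal.ofReal (1 / (x.2.1 ^ 3 * x.2.2.1)) =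
    ∫⁻ Z in Ioi (0 : ℝ), ∫⁻ n in Ioi (0 : ℝ), ∫⁻ k in Ioi (0 : ℝ), ∫⁻ m, ∫⁻ g,
      (if 0 < La Z n k m g ∧ 0 < Wd Z n k m g then
        VVL_G κ Z (La Z n k m g) (Wd Z n k m g) (S1 Z n k m g) (S2 Z n k m g) else 0) *
        ENNReal.ofReal (1 / (n ^ 3 * k)) := by
  classical
  have hm : Measurable (fun x : ℝ × ℝ × ℝ × ℝ × ℝ => ENNReal.ofReal (1 / (x.2.1 ^ 3 * x.2.2.1))) := by
    fun_prop
  rw [← lintegral_indicator (VVL_meas κ), VVL_fub _ (hm.indicator (VVL_meas κ))]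
  refine VVL_red _ _ (fun Z hZ => ?_) (fun Z hZ => ?_)
  · refine VVL_red _ _ (fun n hn => ?_) (fun n hn => ?_)
    · refine VVL_red _ _ (fun k hk => ?_) (fun k hk => ?_)
      · refine lintegral_congr (fun m => lintegral_congr (fun g => ?_))
        by_cases hx : (Z, n, k, m, g) ∈ CenR κ
        · rw [indicator_of_mem hx]
          obtain ⟨a1, a2, a3, a4, a5, a6, a7, a8, a9, a10⟩ := hx
          simp only at a1 a2 a3 a4 a5 a6 a7 a8 a9 a10
          rw [if_pos ⟨by linarith, by linarith⟩]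
          unfold VVL_G
          rw [VVL_ind_true (show VVL_c κ Z (La Z n k m g) (Wd Z n k m g) from
            ⟨⟨a1, a2⟩, ⟨a7, a8⟩, ⟨a5, a6⟩⟩), VVL_ind_true a9, VVL_ind_true a10, one_mul, one_mul, one_mul]
        · rw [indicator_of_notMem hx]
          by_cases hc : 0 < La Z n k m g ∧ 0 < Wd Z n k m g
          · rw [if_pos hc]
            have hG : VVL_G κ Z (La Z n k m g) (Wd Z n k m g) (S1 Z n k m g) (S2 Z n k m g) = 0 := by
              unfold VVL_G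
              rw [← VVL_ind_and, ← VVL_ind_and]
              apply VVL_ind_false
              rintro ⟨⟨⟨⟨b1, b2⟩, ⟨b3, b4⟩, b5, b6⟩, b7⟩, b8⟩
              exact hx ⟨b1, b2, hn, hk, b5, b6, b3, b4, b7, b8⟩
            rw [hG, zero_mul]
          · rw [if_neg hc, zero_mul]
      · have : ∀ m g : ℝ, (CenR κ).indicator
            (fun x : ℝ × ℝ × ℝ × ℝ × ℝ => ENNReal.ofReal (1 / (x.2.1 ^ 3 * x.2.2.1))) (Z, n, k, m, g) = 0 := by
          intro m g
          apply indicator_of_notMem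
          intro hx
          exact absurd hx.2.2.2.1 (not_lt.mpr hk)
        simp only [this, lintegral_zero]
    · have : ∀ k m g : ℝ, (CenR κ).indicator
          (fun x : ℝ × ℝ × ℝ × ℝ × ℝ => ENNReal.ofReal (1 / (x.2.1 ^ 3 * x.2.2.1))) (Z, n, k, m, g) = 0 := by
        intro k m g
        apply indicator_of_notMem
        intro hx
        exact absurd hx.2.2.1 (not_lt.mpr hn)
      simp only [this, lintegral_zero]
  · have : ∀ n k m g : ℝ, (CenR κ).indicator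
        (fun x : ℝ × ℝ × ℝ × ℝ × ℝ => ENNReal.ofReal (1 / (x.2.1 ^ 3 * x.2.2.1))) (Z, n, k, m, g) = 0 := by
      intro n k m g
      apply indicator_of_notMem
      intro hx
      have h1 : 1 / 2 < Z := hx.1
      linarith
    simp only [this, lintegral_zero]

theorem VVL (hVCV : VCV_stmt) : VVL_stmt := by
  intro κ h0 h1
  refine ⟨VVL_meas κ, ?_⟩
  rw [VVL_left κ h0, hVCV (VVL_G κ) (VVL_Gmeas κ), VVL_right κ h0 h1]

end Pool.Agent.T5V
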