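import Pool.Agent.helper8.T5.SpecU

set_option autoImplicit false

/-!
# Project T5 (MP_16912e_nt), row USQ
-/

namespace Pool.Agent.T5

open Finset NumberField Pool.Agent.helper3.FT Pool.Agent.helper47.RA

theorem USQ_half (M : ℤ) (hM : 0 < M) (x0 x y : ℤ) (hc : IsCoprime x0 M)
    (hx : M ∣ (x - x0) * (x + x0)) (hy : M ∣ (y - x0) * (y + x0))
    (hg : Int.gcd (x - x0) M = Int.gcd (y - x0) M) : M ∣ 2 * (x - y) := by
  have hgpos : 0 < Int.gcd (x - x0) M := Int.gcd_pos_of_ne_zero_right _ hM.ne'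
  have key : ∀ w : ℤ, M ∣ (w - x0) * (w + x0) → ∀ g h : ℤ, g = (Int.gcd (w - x0) M : ℤ) → 0 < g →
      M = g * h → h ∣ w + x0 := by
    intro w hw g h hgw hg0 hMh
    obtain ⟨u, hu⟩ : g ∣ w - x0 := by rw [hgw]; exact Int.gcd_dvd_left _ _
    have hcop : IsCoprime h u := by
      rw [Int.isCoprime_iff_gcd_eq_one, Int.gcd_comm]
      have e : Int.gcd (g * u) (g * h) = g.natAbs * Int.gcd u h := Int.gcd_mul_left g u h
      rw [← hu, ← hMh] at e
      have e2 : g.natAbs = Int.gcd (w - x0) M := by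
        rw [hgw]; exact Int.natAbs_natCast _
      rw [← e2] at e
      have hpos : 0 < g.natAbs := Int.natAbs_pos.mpr hg0.ne'
      have e3 : g.natAbs * Int.gcd u h = g.natAbs * 1 := by rw [mul_one]; exact e.symm
      exact Nat.eq_of_mul_eq_mul_left hpos e3
    have h1 : g * h ∣ g * (u * (w + x0)) := by
      rw [← hMh, ← mul_assoc, ← hu]; exact hw
    have h2 : h ∣ u * (w + x0) := (mul_dvd_mul_iff_left hg0.ne').mp h1
    exact hcop.dvd_of_dvd_mul_left h2
  set g : ℤ := (Int.gcd (x - x0) M : ℤ) with hgdef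
  have hg0 : 0 < g := by rw [hgdef]; exact Int.natCast_pos.mpr hgpos
  obtain ⟨h, hMh⟩ : g ∣ M := Int.gcd_dvd_right _ _
  have hx1 : h ∣ x + x0 := key x hx g h rfl hg0 hMh
  have hgy : g = (Int.gcd (y - x0) M : ℤ) := by rw [hgdef, hg]
  have hy1 : h ∣ y + x0 := key y hy g h hgy hg0 hMh
  have gx : g ∣ x - x0 := Int.gcd_dvd_left _ _
  have gy : g ∣ y - x0 := by rw [hgy]; exact Int.gcd_dvd_left _ _
  obtain ⟨a, ha⟩ : g ∣ x - y := by
    have := dvd_sub gx gy
    have e : x - x0 - (y - x0) = x - y := by ring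
    rwa [e] at this
  obtain ⟨b, hb⟩ : h ∣ x - y := by
    have := dvd_sub hx1 hy1
    have e : x + x0 - (y + x0) = x - y := by ring
    rwa [e] at this
  set d : ℤ := (Int.gcd g h : ℤ) with hd
  have dg : d ∣ g := Int.gcd_dvd_left _ _
  have dh : d ∣ h := Int.gcd_dvd_right _ _
  have d2x : d ∣ x0 * 2 := by
    have := dvd_sub (dh.trans hx1) (dg.trans gx)
    have e : x + x0 - (x - x0) = x0 * 2 := by ring
    rwa [e] at this
  have dM : d ∣ M := by rw [hMh]; exact dg.mul_right h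
  have hcd : IsCoprime d x0 := (hc.of_isCoprime_of_dvd_right dM).symm
  obtain ⟨t, ht⟩ : d ∣ 2 := hcd.dvd_of_dvd_mul_left d2x
  have bez : d = g * Int.gcdA g h + h * Int.gcdB g h := Int.gcd_eq_gcd_ab g h
  refine ⟨t * (Int.gcdA g h * b + Int.gcdB g h * a), ?_⟩
  calc 2 * (x - y) = t * (d * (x - y)) := by rw [ht]; ring
    _ = t * (g * Int.gcdA g h * (x - y) + h * Int.gcdB g h * (x - y)) := by
        rw [bez]; ring
    _ = t * (g * Int.gcdA g h * (h * b) + h * Int.gcdB g h * (g * a)) := by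
        rw [← hb, ← ha]
    _ = M * (t * (Int.gcdA g h * b + Int.gcdB g h * a)) := by rw [hMh]; ring

theorem USQ_two (M : ℕ) (F : Finset ℕ) (h1 : ∀ x ∈ F, x < M)
    (h2 : ∀ x ∈ F, ∀ y ∈ F, (M : ℤ) ∣ 2 * ((x : ℤ) - y)) : F.card ≤ 2 := by
  by_contra hcon
  push Not at hcon
  obtain ⟨a, ha, b, hb, c, hc, hab, hac, hbc⟩ := Finset.two_lt_card.mp hcon
  have key : ∀ x ∈ F, ∀ y ∈ F, x ≠ y → 2 * ((x : ℤ) - y) = M ∨ 2 * ((x : ℤ) - y) = -M := by
    intro x hx y hy hxy
    obtain ⟨k, hk⟩ := h2 x hx y hy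
    have hx1 := h1 x hx
    have hy1 := h1 y hy
    have hM : (0 : ℤ) < M := by omega
    have k1 : k < 2 := by
      by_contra hcon
      push Not at hcon
      have : (M : ℤ) * 2 ≤ M * k := mul_le_mul_of_nonneg_left hcon hM.le
      omega
    have k2 : -2 < k := by
      by_contra hcon
      push Not at hcon
      have : (M : ℤ) * k ≤ M * (-2) := mul_le_mul_of_nonneg_left hcon hM.le
      omega
    have k3 : k = -1 ∨ k = 0 ∨ k = 1 := by omega
    rcases k3 with rfl | rfl | rfl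
    · right; rw [hk]; ring
    · exfalso; rw [mul_zero] at hk; omega
    · left; rw [hk]; ring
  have e1 := key a ha b hb hab
  have e2 := key a ha c hc hac
  have e3 := key b hb c hc hbc
  have := h1 a ha
  omega

theorem USQ : USQ_stmt := by
  classical
  intro M c hM hc
  have hMZ : (0 : ℤ) < M := by exact_mod_cast hM
  set S := (range M).filter fun x : ℕ => (M : ℤ) ∣ (x : ℤ) ^ 2 - c with hS
  rcases S.eq_empty_or_nonempty with he | ⟨x0, hx0⟩
  · rw [he, card_empty]; exact Nat.zero_le _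
  have hx0' := (mem_filter.mp hx0).2
  have hcop : IsCoprime (x0 : ℤ) (M : ℤ) := by
    obtain ⟨k, hk⟩ := hx0'
    have e : (x0 : ℤ) ^ 2 = c + M * k := by linarith
    have h : IsCoprime ((x0 : ℤ) ^ 2) (M : ℤ) := by
      rw [e]; exact hc.add_mul_left_left k
    exact (IsCoprime.pow_left_iff (by norm_num)).mp h
  have hfac : ∀ x ∈ S, (M : ℤ) ∣ ((x : ℤ) - x0) * ((x : ℤ) + x0) := by
    intro x hx
    have h := dvd_sub (mem_filter.mp hx).2 hx0'
    have e : (x : ℤ) ^ 2 - c - ((x0 : ℤ) ^ 2 - c) = ((x : ℤ) - x0) * ((x : ℤ) + x0) := by ring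
    rwa [e] at h
  refine Finset.card_le_mul_card_image_of_maps_to (f := fun x : ℕ => Int.gcd ((x : ℤ) - x0) (M : ℤ))
    (t := M.divisors) ?_ 2 ?_
  · intro x _
    refine Nat.mem_divisors.mpr ⟨?_, hM.ne'⟩
    have h : ((Int.gcd ((x : ℤ) - x0) (M : ℤ) : ℕ) : ℤ) ∣ (M : ℤ) := Int.gcd_dvd_right _ _
    exact_mod_cast h
  · intro g _
    apply USQ_two M
    · intro x hx
      exact mem_range.mp (mem_filter.mp (mem_filter.mp hx).1).1
    · intro x hx y hy
      obtain ⟨hxS, hxg⟩ := mem_filter.mp hx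
      obtain ⟨hyS, hyg⟩ := mem_filter.mp hy
      exact USQ_half M hMZ x0 x y hcop (hfac x hxS) (hfac y hyS) (hxg.trans hyg.symm)

end Pool.Agent.T5
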